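import Mathlib
import Pool.Agent.R489.HB.Stm

set_option autoImplicit false

namespace Pool.Agent.R334.HB

open Finset Pool.Agent.R489.HB

theorem CNT : S_CNT := by
  intro W _ Ψ u v e huv hno hinj hve _
  have h0 : (fc (Ψ.image (mv u v)) e).card = (Ψ.filter (fun f => e ⊆ mv u v f)).card := by
    rw [fc, filter_image, card_image_of_injOn]
    intro f hf g hg hfg
    have hf' : f ∈ Ψ := (mem_filter.1 (mem_coe.1 hf)).1
    have hg' : g ∈ Ψ := (mem_filter.1 (mem_coe.1 hg)).1
    exact hinj hf' hg' hfg
  constructor
  · intro hue
    rw [h0, fc]
    congr 1
    apply filter_congr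
    intro f _
    by_cases hvf : v ∈ f
    · rw [mv, if_pos hvf]
      constructor
      · intro h x hx
        rcases mem_insert.1 (h hx) with h1 | h1
        · exact absurd (h1 ▸ hx) hue
        · exact (mem_erase.1 h1).2
      · intro h x hx
        refine mem_insert_of_mem (mem_erase.2 ⟨?_, h hx⟩)
        rintro rfl
        exact hve hx
    · rw [mv, if_neg hvf]
  · intro hue
    rw [h0]
    have h1 : Ψ.filter (fun f => e ⊆ mv u v f) =
        fc Ψ e ∪ fc Ψ (insert v (e.erase u)) := by
      rw [fc, fc, ← filter_or]
      apply filter_congr
      intro f hf
      by_cases hvf : v ∈ f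
      · have huf : u ∉ f := by
          intro h
          apply hno f hf
          intro x hx
          rcases mem_insert.1 hx with h2 | h2
          · rw [h2]; exact h
          · rw [mem_singleton.1 h2]; exact hvf
        rw [mv, if_pos hvf]
        constructor
        · intro h
          right
          intro x hx
          rcases mem_insert.1 hx with h2 | h2
          · rw [h2]; exact hvf
          · rcases mem_insert.1 (h (mem_erase.1 h2).2) with h3 | h3
            · exact absurd h3 (mem_erase.1 h2).1
            · exact (mem_erase.1 h3).2
        · rintro (h | h)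
          · exact absurd (h hue) huf
          · intro x hx
            by_cases hxu : x = u
            · rw [hxu]; exact mem_insert_self _ _
            · refine mem_insert_of_mem (mem_erase.2 ⟨?_, ?_⟩)
              · rintro rfl
                exact hve hx
              · exact h (mem_insert_of_mem (mem_erase.2 ⟨hxu, hx⟩))
      · rw [mv, if_neg hvf]
        constructor
        · intro h; exact Or.inl h
        · rintro (h | h)
          · exact h
          · exact absurd (h (mem_insert_self _ _)) hvf
    rw [h1, card_union_of_disjoint]
    rw [disjoint_left]
    intro f hf1 hf2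
    have hf : f ∈ Ψ := (mem_filter.1 hf1).1
    apply hno f hf
    intro x hx
    rcases mem_insert.1 hx with h2 | h2
    · rw [h2]; exact (mem_filter.1 hf1).2 hue
    · rw [mem_singleton.1 h2]; exact (mem_filter.1 hf2).2 (mem_insert_self _ _)

end Pool.Agent.R334.HB
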